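import Pool.Agent.Acyclic955.Main
import Pool.Agent.Helper648.SZ.Prod

set_option autoImplicit false

namespace Pool.Agent.Results.MP_53fb6e_gt.AcyclicAndArcLike

/-- The ordered (simplicial) coboundary. A `p`-cochain with integer coefficients on a set `α` of
vertices is an integer valued function of lists of `p + 1` vertices; the coboundary of `φ` at a
list `l` is `∑ j, (-1)^j φ(l with its j-th entry deleted)`. On lists of length one this is the
value of `φ` at the empty list, so the complex is the augmented one. -/
def cob {α : Type*} (φ : List α → ℤ) (l : List α) : ℤ :=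
  ∑ j ∈ Finset.range l.length, (-1) ^ j * φ (l.eraseIdx j)

/-- `X` is acyclic: it is nonempty and its reduced Čech cohomology groups with integer
coefficients vanish in all degrees `p ≥ 0`. In words: for every open cover `U` of `X` and every
`p`-cocycle `c` of the nerve of `U` (lists `l` of `p + 1` indices such that the sets `U i`,
`i ∈ l`, have a common point; in degree `0` the reduced, i.e. augmented, complex is used) there are
an open cover `V` refining `U`, with refinement map `r`, such that the pulled back cochain
`l ↦ c (l.map r)` is the coboundary of a `(p - 1)`-cochain `b` of the nerve of `V`; i.e. every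
class dies in the direct limit over all open covers. -/
def CechAcyclic (X : Type) [TopologicalSpace X] : Prop :=
  Nonempty X ∧
  ∀ (p : ℕ) (ι : Type) (U : ι → Set X), (∀ i, IsOpen (U i)) → (⋃ i, U i) = Set.univ →
    ∀ c : List ι → ℤ,
      (∀ l : List ι, l.length = p + 2 → (⋂ i ∈ l, U i).Nonempty → cob c l = 0) →
      ∃ (κ : Type) (V : κ → Set X) (r : κ → ι),
        (∀ k, IsOpen (V k)) ∧ (⋃ k, V k) = Set.univ ∧ (∀ k, V k ⊆ U (r k)) ∧
        ∃ b : List κ → ℤ, ∀ l : List κ, l.length = p + 1 → (⋂ k ∈ l, V k).Nonempty →
          c (l.map r) = cob b l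

/-- `X` is arc-like: for every `ε > 0` there is a mapping of `X` onto `[0,1]` all of whose fibres
have diameter less than `ε`. -/
def ArcLike (X : Type) [MetricSpace X] : Prop :=
  ∀ ε : ℝ, 0 < ε → ∃ g : X → ℝ, Continuous g ∧ Set.range g = Set.Icc 0 1 ∧
    ∀ t : ℝ, Metric.diam (g ⁻¹' {t}) < ε

/-- `f` is a confluent mapping of `X` onto `Y`: it is continuous, surjective, and for every
subcontinuum `K` of `Y` every component of `f⁻¹(K)` is mapped onto `K`. -/
def ConfluentOnto {X Y : Type} [MetricSpace X] [MetricSpace Y] (f : X → Y) : Prop :=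
  Continuous f ∧ Function.Surjective f ∧
    ∀ K : Set Y, IsClosed K → IsConnected K →
      ∀ x ∈ f ⁻¹' K, f '' connectedComponentIn (f ⁻¹' K) x = K

/-- Two of the three classes of the question. The class of acyclic continua: there is a confluent
mapping `f` of an acyclic continuum `X` onto a continuum `Y` such that `f × f` is not confluent.
The class of arc-like continua: for every arc-like continuum `X` and every confluent mapping `f`
of `X` onto a continuum `Y` the mapping `f × f` of `X × X` onto `Y × Y` is confluent. -/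
theorem result :
    (∃ (X Y : Type) (_ : MetricSpace X) (_ : CompactSpace X) (_ : ConnectedSpace X)
      (_ : MetricSpace Y) (_ : CompactSpace Y) (_ : ConnectedSpace Y) (f : X → Y),
      CechAcyclic X ∧ ConfluentOnto f ∧ ¬ ConfluentOnto (Prod.map f f)) ∧
    (∀ (X Y : Type) [MetricSpace X] [CompactSpace X] [ConnectedSpace X]
      [MetricSpace Y] [CompactSpace Y] [ConnectedSpace Y] (f : X → Y),
      ArcLike X → ConfluentOnto f → ConfluentOnto (Prod.map f f)) := by
  constructor
  · obtain ⟨X, Y, iX, iY, hX, hXc, hY, hYc, hac, f, hf, hs, hcf, hn⟩ :=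
      Pool.Agent.Acyclic955.result
    refine ⟨X, Y, iX, hX, hXc, iY, hY, hYc, f, hac, ⟨hf, hs, hcf⟩, ?_⟩
    rintro ⟨-, -, h⟩
    exact hn h
  · intro X Y _ _ _ _ _ _ f hX hf
    obtain ⟨hfc, hfs, hfk⟩ := hf
    have hS : Pool.Agent.Helper739.CT.SpanZero X := by
      apply Pool.Agent.Helper648.SZ.spanZero_of_arcLike
      intro ε hε
      obtain ⟨g, hg, -, hg'⟩ := hX ε hε
      exact ⟨g, hg, hg'⟩
    have hC : Pool.Agent.Helper648.SZ.Confl f := fun Q hQ x hx => hfk Q hQ.1.isClosed hQ.2 x hx
    refine ⟨hfc.prodMap hfc, hfs.prodMap hfs, ?_⟩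
    intro L hL hLc p hp
    exact Pool.Agent.Helper648.SZ.prod_confl_of_spanZero hS hS f hfc hfs hC f hfc hfs hC L
      ⟨hL.isCompact, hLc⟩ p hp

end Pool.Agent.Results.MP_53fb6e_gt.AcyclicAndArcLike
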