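import Mathlib

open Set Topology

noncomputable section

namespace Pool.Agent.Results.MP_53fb6e_gt.AcyclicCounterexample

/-- The ordered (simplicial) coboundary. A `p`-cochain with integer coefficients on a set `α` of
vertices is an integer valued function of lists of `p + 1` vertices; the coboundary of `φ` at a
list `l` is `∑ j, (-1)^j φ(l with its j-th entry deleted)`. On lists of length one this is the
value of `φ` at the empty list, so the complex is the augmented one. -/
def cob {α : Type*} (φ : List α → ℤ) (l : List α) : ℤ :=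
  ∑ j ∈ Finset.range l.length, (-1) ^ j * φ (l.eraseIdx j)

theorem cob_nil {α : Type*} (φ : List α → ℤ) : cob φ [] = 0 := by simp [cob]

theorem cob_cons {α : Type*} (φ : List α → ℤ) (a : α) (l : List α) :
    cob φ (a :: l) = φ l - cob (fun m => φ (a :: m)) l := by
  simp only [cob, List.length_cons, Finset.sum_range_succ', pow_zero, one_mul, List.eraseIdx_cons_zero,
    List.eraseIdx_cons_succ, pow_succ]
  rw [add_comm, sub_eq_add_neg, ← Finset.sum_neg_distrib]
  congr 1
  apply Finset.sum_congr rfl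
  intro j _
  ring

theorem cob_sub {α : Type*} (φ θ : List α → ℤ) (l : List α) :
    cob (fun m => φ m - θ m) l = cob φ l - cob θ l := by
  simp only [cob, mul_sub, Finset.sum_sub_distrib]

theorem cob_add {α : Type*} (φ θ : List α → ℤ) (l : List α) :
    cob (fun m => φ m + θ m) l = cob φ l + cob θ l := by
  simp only [cob, mul_add, Finset.sum_add_distrib]

theorem cob_map {α β : Type*} (g : α → β) (l : List α) : ∀ φ : List β → ℤ,
    cob φ (l.map g) = cob (fun m => φ (m.map g)) l := by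
  induction l with
  | nil => intro φ; simp [cob_nil]
  | cons a l ih =>
    intro φ
    rw [List.map_cons, cob_cons, cob_cons, ih]
    simp

/-- The prism operator. -/
def pr {α β : Type*} (f g : α → β) : (List β → ℤ) → List α → ℤ
  | _, [] => 0
  | φ, (a :: l) => φ (f a :: (a :: l).map g) - pr f g (fun m => φ (f a :: m)) l

theorem pr_sub {α β : Type*} (f g : α → β) (l : List α) : ∀ φ θ : List β → ℤ,
    pr f g (fun m => φ m - θ m) l = pr f g φ l - pr f g θ l := by
  induction l with
  | nil => intro φ θ; simp [pr]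
  | cons a l ih =>
    intro φ θ
    simp only [pr]
    rw [ih]
    ring

theorem prism {α β : Type*} (f g : α → β) (l : List α) : ∀ φ : List β → ℤ,
    cob (pr f g φ) l + pr f g (cob φ) l = φ (l.map g) - φ (l.map f) := by
  induction l with
  | nil => intro φ; simp [cob_nil, pr]
  | cons a l ih =>
    intro φ
    rw [cob_cons]
    have h1 : (fun m => pr f g φ (a :: m))
        = fun m => (fun m => φ (f a :: g a :: m.map g)) m - pr f g (fun m => φ (f a :: m)) m := by
      funext m
      simp only [pr, List.map_cons]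
    rw [h1, cob_sub]
    have h2 : pr f g (cob φ) (a :: l)
        = cob φ (f a :: g a :: l.map g) - pr f g (fun m => cob φ (f a :: m)) l := by
      simp only [pr, List.map_cons]
    rw [h2]
    have h3 : (fun m => cob φ (f a :: m)) = fun m => φ m - cob (fun m => φ (f a :: m)) m := by
      funext m
      rw [cob_cons]
    rw [h3, pr_sub, cob_cons, cob_cons, cob_map]
    have h4 := ih (fun m => φ (f a :: m))
    simp only [List.map_cons] at h4 ⊢
    linarith

/-- smallness of the lists entering the prism -/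
theorem pr_eq_zero {α β : Type*} (f g : α → β) (l : List α) : ∀ θ : List β → ℤ,
    (∀ j < l.length, θ ((l.take (j + 1)).map f ++ (l.drop j).map g) = 0) → pr f g θ l = 0 := by
  induction l with
  | nil => intro θ _; simp [pr]
  | cons a l ih =>
    intro θ h
    simp only [pr]
    have h0 := h 0 (by simp)
    simp only [zero_add, List.take_succ_cons, List.take_zero, List.map_cons, List.map_nil,
      List.drop_zero, List.cons_append, List.nil_append] at h0
    rw [List.map_cons, h0]
    rw [ih]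
    · simp
    · intro j hj
      have := h (j + 1) (by simpa using hj)
      simpa using this


theorem telescope {α : Type*} {β : Type*} (h : ℕ → α → β) (φ : List β → ℤ) (l : List α) (N : ℕ)
    (h0 : ∀ i < N, pr (h i) (h (i + 1)) (cob φ) l = 0) :
    cob (fun m => ∑ i ∈ Finset.range N, pr (h i) (h (i + 1)) φ m) l
      = φ (l.map (h N)) - φ (l.map (h 0)) := by
  induction N with
  | zero => simp [cob]
  | succ N ih =>
    simp only [Finset.sum_range_succ]
    rw [cob_add, ih (fun i hi => h0 i (by omega))]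
    have h1 := prism (h N) (h (N + 1)) l φ
    rw [h0 N (by omega), add_zero] at h1
    rw [h1]
    ring

theorem const_cob {α : Type*} (φ : List α → ℤ) (c : α) (p : ℕ)
    (h0 : cob φ (List.replicate (p + 2) c) = 0) (l : List α) (hl : l.length = p + 1) :
    φ (List.replicate (p + 1) c) = cob (fun _ => φ (List.replicate (p + 1) c)) l := by
  set κ := φ (List.replicate (p + 1) c) with hκ
  have h1 : cob φ (List.replicate (p + 2) c) = (∑ j ∈ Finset.range (p + 2), (-1 : ℤ) ^ j) * κ := by
    rw [cob, List.length_replicate, Finset.sum_mul]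
    apply Finset.sum_congr rfl
    intro j hj
    have : (List.replicate (p + 2) c).eraseIdx j = List.replicate (p + 1) c := by
      rw [List.eraseIdx_replicate, if_pos (Finset.mem_range.mp hj)]
      rfl
    rw [this]
  have h2 : cob (fun _ => κ) l = (∑ j ∈ Finset.range (p + 1), (-1 : ℤ) ^ j) * κ := by
    rw [cob, hl, Finset.sum_mul]
  rw [h2]
  rw [h1, neg_one_geom_sum] at h0
  rw [neg_one_geom_sum]
  rcases Nat.even_or_odd p with hp | hp
  · have : ¬ Even (p + 1) := by
      rw [Nat.not_even_iff_odd]; exact hp.add_one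
    rw [if_neg this]; ring
  · have h3 : ¬ Even (p + 2) := by
      rw [Nat.not_even_iff_odd]; exact hp.add_even (by decide)
    rw [if_neg h3] at h0
    have : κ = 0 := by linarith
    rw [this]; ring

/-- a list whose entries are pairwise at distance less than `ε` -/
def Small {X : Type*} [PseudoMetricSpace X] (ε : ℝ) (l : List X) : Prop :=
  ∀ a ∈ l, ∀ b ∈ l, dist a b < ε

/-- discrete controlled contractions at all scales -/
def ChainContractible (X : Type*) [PseudoMetricSpace X] : Prop :=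
  ∀ ε > 0, ∃ δ > 0, ∃ (N : ℕ) (h : ℕ → X → X), (∀ x, h 0 x = x) ∧ (∃ c, ∀ x, h N x = c) ∧
    (∀ i ≤ N, ∀ x y, dist x y < δ → dist (h i x) (h i y) < ε) ∧
    (∀ i < N, ∀ x, dist (h i x) (h (i + 1) x) < ε)

theorem small_acyclic {X : Type*} [PseudoMetricSpace X] (hX : ChainContractible X)
    (p : ℕ) (ε : ℝ) (hε : 0 < ε) (φ : List X → ℤ)
    (hφ : ∀ l : List X, l.length = p + 2 → Small ε l → cob φ l = 0) :
    ∃ δ > 0, ∃ ψ : List X → ℤ, ∀ l : List X, l.length = p + 1 → Small δ l → φ l = cob ψ l := by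
  obtain ⟨δ, hδ, N, h, h0, ⟨c, hc⟩, h1, h2⟩ := hX (ε / 2) (by positivity)
  refine ⟨δ, hδ, fun m => (fun _ => φ (List.replicate (p + 1) c)) m
    - ∑ i ∈ Finset.range N, pr (h i) (h (i + 1)) φ m, ?_⟩
  intro l hl hs
  rw [cob_sub]
  rw [telescope h φ l N, ← const_cob φ c p _ l hl]
  · have e1 : l.map (h N) = List.replicate (p + 1) c := by
      rw [← hl]
      apply List.eq_replicate_iff.mpr
      refine ⟨by simp, ?_⟩
      intro b hb
      obtain ⟨a, _, rfl⟩ := List.mem_map.mp hb
      exact hc a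
    have e2 : l.map (h 0) = l := by
      have : h 0 = id := by funext x; exact h0 x
      rw [this, List.map_id]
    rw [e1, e2]
    ring
  · apply hφ _ (by simp)
    intro a ha b hb
    rw [List.eq_of_mem_replicate ha, List.eq_of_mem_replicate hb, dist_self]
    exact hε
  · intro i hi
    apply pr_eq_zero
    intro j hj
    apply hφ
    · simp only [List.length_append, List.length_map, List.length_take, List.length_drop]
      omega
    · have key : ∀ a ∈ l, ∀ b ∈ l, dist (h i a) (h (i + 1) b) < ε := by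
        intro a ha b hb
        calc dist (h i a) (h (i + 1) b) ≤ dist (h i a) (h i b) + dist (h i b) (h (i + 1) b) :=
              dist_triangle _ _ _
          _ < ε / 2 + ε / 2 := add_lt_add (h1 i hi.le a b (hs a ha b hb)) (h2 i hi b)
          _ = ε := by ring
      intro a ha b hb
      rw [List.mem_append] at ha hb
      rcases ha with ha | ha <;> rcases hb with hb | hb <;>
        obtain ⟨a', ha', rfl⟩ := List.mem_map.mp ha <;>
        obtain ⟨b', hb', rfl⟩ := List.mem_map.mp hb
      · exact (h1 i hi.le a' b' (hs _ (List.mem_of_mem_take ha') _ (List.mem_of_mem_take hb'))).trans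
          (by linarith)
      · exact key _ (List.mem_of_mem_take ha') _ (List.mem_of_mem_drop hb')
      · rw [dist_comm]
        exact key _ (List.mem_of_mem_take hb') _ (List.mem_of_mem_drop ha')
      · exact (h1 (i + 1) hi a' b' (hs _ (List.mem_of_mem_drop ha') _ (List.mem_of_mem_drop hb'))).trans
          (by linarith)

/-- `X` is acyclic: it is nonempty and its reduced Čech cohomology groups with integer
coefficients vanish in all degrees `p ≥ 0`. In words: for every open cover `U` of `X` and every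
`p`-cocycle `c` of the nerve of `U` (lists `l` of `p + 1` indices such that the sets `U i`,
`i ∈ l`, have a common point; in degree `0` the reduced, i.e. augmented, complex is used) there are
an open cover `V` refining `U`, with refinement map `r`, such that the pulled back cochain
`l ↦ c (l.map r)` is the coboundary of a `(p - 1)`-cochain `b` of the nerve of `V`; i.e. every
class dies in the direct limit over all open covers. -/
def CechAcyclic (X : Type) [TopologicalSpace X] : Prop :=
  Nonempty X ∧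
  ∀ (p : ℕ) (ι : Type) (U : ι → Set X), (∀ i, IsOpen (U i)) → (⋃ i, U i) = univ →
    ∀ c : List ι → ℤ,
      (∀ l : List ι, l.length = p + 2 → (⋂ i ∈ l, U i).Nonempty → cob c l = 0) →
      ∃ (κ : Type) (V : κ → Set X) (r : κ → ι),
        (∀ k, IsOpen (V k)) ∧ (⋃ k, V k) = univ ∧ (∀ k, V k ⊆ U (r k)) ∧
        ∃ b : List κ → ℤ, ∀ l : List κ, l.length = p + 1 → (⋂ k ∈ l, V k).Nonempty →
          c (l.map r) = cob b l

theorem cechAcyclic_of_chainContractible {X : Type} [PseudoMetricSpace X] [CompactSpace X]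
    [Nonempty X] (hX : ChainContractible X) : CechAcyclic X := by
  refine ⟨inferInstance, ?_⟩
  intro p ι U hU hcov c hc
  obtain ⟨lam, hlam, hleb⟩ := lebesgue_number_lemma_of_metric (s := (univ : Set X)) (c := U)
    isCompact_univ hU (by rw [hcov])
  choose i hi' using fun x : X => hleb x (mem_univ x)
  obtain ⟨δ, hδ, ψ, hψ⟩ := small_acyclic hX p lam hlam (fun l => c (l.map i)) (by
    intro l hl hs
    rw [← cob_map]
    apply hc _ (by simpa using hl)
    match l, hl, hs with
    | a :: l', hl, hs =>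
      refine ⟨a, ?_⟩
      simp only [mem_iInter]
      intro j hj
      obtain ⟨b, hb, rfl⟩ := List.mem_map.mp hj
      apply hi' b
      rw [Metric.mem_ball]
      exact hs a (by simp) b hb)
  refine ⟨X, fun x => Metric.ball x (min δ lam / 2), i, fun _ => Metric.isOpen_ball, ?_, ?_, ψ, ?_⟩
  · apply eq_univ_of_forall
    intro x
    rw [mem_iUnion]
    exact ⟨x, Metric.mem_ball_self (by positivity)⟩
  · intro x
    refine (Metric.ball_subset_ball ?_).trans (hi' x)
    have := min_le_right δ lam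
    linarith
  · intro l hl ⟨y, hy⟩
    simp only [mem_iInter, Metric.mem_ball] at hy
    apply hψ l hl
    intro a ha b hb
    have h1 := hy a ha
    have h2 := hy b hb
    calc dist a b ≤ dist a y + dist y b := dist_triangle _ _ _
      _ < min δ lam / 2 + min δ lam / 2 := by rw [dist_comm a y]; exact add_lt_add h1 h2
      _ = min δ lam := by ring
      _ ≤ δ := min_le_left _ _

/-- compacta with contractible compact neighbourhoods at all scales -/
theorem chainContractible_of_nested {E : Type*} [MetricSpace E] (K : Set E)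
    (hK : ∀ ε > 0, ∃ A : Set E, K ⊆ A ∧ IsCompact A ∧ ContractibleSpace A ∧
      ∀ a ∈ A, ∃ k ∈ K, dist a k < ε) : ChainContractible K := by
  intro ε hε
  obtain ⟨A, hKA, hA, hcontr, hnear⟩ := hK (ε / 5) (by positivity)
  have : CompactSpace A := isCompact_iff_compactSpace.mp hA
  obtain ⟨y, ⟨H⟩⟩ := (id_nullhomotopic A)
  have huc : UniformContinuous (H : unitInterval × A → A) :=
    CompactSpace.uniformContinuous_of_continuous H.continuous
  obtain ⟨η, hη, hη'⟩ := Metric.uniformContinuous_iff.mp huc (ε / 5) (by positivity)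
  obtain ⟨N, hN⟩ := exists_nat_one_div_lt hη
  have hρ : ∀ a : A, ∃ k : K, dist (k : E) a < ε / 5 ∧ ((a : E) ∈ K → (k : E) = a) := by
    intro a
    by_cases ha : (a : E) ∈ K
    · exact ⟨⟨a, ha⟩, by simpa using (by positivity : 0 < ε / 5), fun _ => rfl⟩
    · obtain ⟨k, hk, hd⟩ := hnear a a.2
      exact ⟨⟨k, hk⟩, by rw [dist_comm]; exact hd, fun h => absurd h ha⟩
  choose ρ hρ1 hρ2 using hρ
  let t : ℕ → unitInterval := fun i => Set.projIcc 0 1 zero_le_one ((i : ℝ) / (N + 1))
  have hdist : ∀ a b : A, dist a b < ε / 5 → dist (ρ a) (ρ b) < ε := by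
    intro a b hab
    calc dist (ρ a) (ρ b) = dist (ρ a : E) (ρ b) := rfl
      _ ≤ dist (ρ a : E) a + dist (a : E) b + dist (b : E) (ρ b) := dist_triangle4 _ _ _ _
      _ < ε / 5 + ε / 5 + ε / 5 := by
        have h1 := hρ1 a
        have h2 := hρ1 b
        rw [dist_comm] at h2
        have h3 : dist (a : E) b < ε / 5 := hab
        linarith
      _ < ε := by linarith
  refine ⟨η, hη, N + 1, fun i x => ρ (H (t i, Set.inclusion hKA x)), ?_, ⟨ρ y, ?_⟩, ?_, ?_⟩
  · intro x
    have ht : t 0 = 0 := by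
      simp only [t, Nat.cast_zero, zero_div]
      exact Set.projIcc_left _
    change ρ (H (t 0, Set.inclusion hKA x)) = x
    rw [ht, H.apply_zero]
    apply Subtype.ext
    exact hρ2 _ x.2
  · intro x
    have ht : t (N + 1) = 1 := by
      have : ((N + 1 : ℕ) : ℝ) / (N + 1) = 1 := by
        push_cast
        field_simp
      simp only [t, this]
      exact Set.projIcc_right _
    change ρ (H (t (N + 1), Set.inclusion hKA x)) = ρ y
    rw [ht, H.apply_one]
    rfl
  · intro i _ x x' hxx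
    apply hdist
    apply hη'
    rw [Prod.dist_eq]
    simp only [dist_self]
    exact max_lt hη hxx
  · intro i hi x
    apply hdist
    apply hη'
    rw [Prod.dist_eq]
    simp only [dist_self]
    refine max_lt ?_ hη
    have e1 : ((t i : ℝ)) = (i : ℝ) / (N + 1) := by
      simp only [t]
      rw [Set.projIcc_of_mem]
      constructor
      · positivity
      · rw [div_le_one (by positivity)]
        exact_mod_cast hi.le
    have e2 : ((t (i + 1) : ℝ)) = ((i : ℝ) + 1) / (N + 1) := by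
      simp only [t]
      rw [Set.projIcc_of_mem]
      · push_cast; rfl
      constructor
      · positivity
      · rw [div_le_one (by positivity)]
        exact_mod_cast hi
    have : dist (t i) (t (i + 1)) = 1 / (N + 1) := by
      rw [Subtype.dist_eq, Real.dist_eq, e1, e2]
      have : (i : ℝ) / (N + 1) - (i + 1) / (N + 1) = -(1 / (N + 1)) := by ring
      rw [this, abs_neg, abs_of_pos (by positivity)]
    rw [this]
    exact hN


/-- the ray -/
def gam (s : ℝ) : ℂ := (Real.sin (1 / s) : ℂ) * Complex.exp (((1 / s ^ 2 : ℝ) : ℂ) * Complex.I)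

theorem norm_gam (s : ℝ) : ‖gam s‖ ≤ 1 := by
  rw [gam, norm_mul, Complex.norm_exp_ofReal_mul_I, mul_one, Complex.norm_real]
  exact Real.abs_sin_le_one _

theorem continuousAt_gam {s : ℝ} (hs : s ≠ 0) : ContinuousAt gam s := by
  unfold gam
  have h1 : ContinuousAt (fun s : ℝ => 1 / s) s := continuousAt_const.div continuousAt_id hs
  have h2 : ContinuousAt (fun s : ℝ => 1 / s ^ 2) s :=
    continuousAt_const.div (continuousAt_id.pow 2) (pow_ne_zero 2 hs)
  apply ContinuousAt.mul
  · exact Complex.continuous_ofReal.continuousAt.comp (Real.continuous_sin.continuousAt.comp h1)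
  · apply Complex.continuous_exp.continuousAt.comp
    exact (Complex.continuous_ofReal.continuousAt.comp h2).mul continuousAt_const

/-- the auxiliary sets -/
def AA (a : ℝ) : Set (ℂ × ℝ) :=
  {p | ‖p.1‖ ≤ 1 ∧ 0 ≤ p.2 ∧ p.2 ≤ 1 ∧ (a < p.2 → p.1 = gam p.2)}

theorem continuous_cut {a : ℝ} (ha : 0 ≤ a) :
    Continuous (fun s : ℝ => (max (s - a) 0 : ℝ) • gam s) := by
  rw [continuous_iff_continuousAt]
  intro s
  by_cases hs : s = 0
  · subst hs
    rw [ContinuousAt]
    have h0 : (max ((0:ℝ) - a) 0 : ℝ) • gam 0 = 0 := by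
      rw [max_eq_right (by linarith), zero_smul]
    rw [h0]
    apply squeeze_zero_norm (a := fun s : ℝ => |s|)
    · intro t
      rw [norm_smul]
      have h1 : ‖max (t - a) 0‖ ≤ |t| := by
        rw [Real.norm_of_nonneg (le_max_right _ _)]
        exact max_le (by linarith [le_abs_self t]) (abs_nonneg t)
      calc ‖max (t - a) 0‖ * ‖gam t‖ ≤ |t| * 1 :=
            mul_le_mul h1 (norm_gam t) (norm_nonneg _) (abs_nonneg _)
        _ = |t| := mul_one _
    · have := (continuous_abs (G := ℝ)).tendsto 0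
      simpa using this
  · have h1 : ContinuousAt (fun s : ℝ => max (s - a) 0) s :=
      ((continuous_id.sub continuous_const).max continuous_const).continuousAt
    exact h1.smul (continuousAt_gam hs)

theorem AA_eq (a : ℝ) : AA a = ({p | ‖p.1‖ ≤ 1} ∩ {p | 0 ≤ p.2} ∩ {p | p.2 ≤ 1} ∩
    {p : ℂ × ℝ | (max (p.2 - a) 0 : ℝ) • p.1 = (max (p.2 - a) 0 : ℝ) • gam p.2}) := by
  ext p
  simp only [AA, mem_inter_iff, Set.mem_ofPred_eq]
  constructor
  · rintro ⟨h1, h2, h3, h4⟩
    refine ⟨⟨⟨h1, h2⟩, h3⟩, ?_⟩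
    by_cases h : a < p.2
    · rw [← h4 h]
    · rw [max_eq_right (by linarith), zero_smul, zero_smul]
  · rintro ⟨⟨⟨h1, h2⟩, h3⟩, h4⟩
    refine ⟨h1, h2, h3, ?_⟩
    intro h
    rw [max_eq_left (by linarith)] at h4
    exact smul_right_injective ℂ (by linarith : p.2 - a ≠ 0) h4 

theorem isClosed_AA {a : ℝ} (ha : 0 ≤ a) : IsClosed (AA a) := by
  rw [AA_eq]
  refine IsClosed.inter (IsClosed.inter (IsClosed.inter ?_ ?_) ?_) ?_
  · exact isClosed_le (continuous_norm.comp continuous_fst) continuous_const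
  · exact isClosed_le continuous_const continuous_snd
  · exact isClosed_le continuous_snd continuous_const
  · apply isClosed_eq
    · exact (((continuous_snd.sub continuous_const).max continuous_const).smul continuous_fst)
    · exact (continuous_cut ha).comp continuous_snd

theorem isCompact_AA {a : ℝ} (ha : 0 ≤ a) : IsCompact (AA a) := by
  apply ((isCompact_closedBall (0 : ℂ) 1).prod (isCompact_Icc (a := (0:ℝ)) (b := 1))).of_isClosed_subset
    (isClosed_AA ha)
  rintro p ⟨h1, h2, h3, _⟩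
  exact ⟨by simpa using h1, h2, h3⟩

/-- push the whisker down -/
def R (a τ : ℝ) (p : ℂ × ℝ) : ℂ × ℝ :=
  if p.2 ≤ a then p else (gam (min p.2 (max a τ)), min p.2 (max a τ))

theorem R_mem {a τ : ℝ} (ha : 0 < a) {p : ℂ × ℝ} (hp : p ∈ AA a) : R a τ p ∈ AA a := by
  unfold R
  split_ifs with h
  · exact hp
  · push Not at h
    refine ⟨norm_gam _, ?_, ?_, fun _ => rfl⟩
    · exact le_min (by linarith) (le_trans ha.le (le_max_left _ _))
    · exact (min_le_left _ _).trans hp.2.2.1

theorem continuous_R {a : ℝ} (ha : 0 < a) :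
    Continuous (fun q : ℝ × AA a => R a q.1 q.2.1) := by
  have hS1 : IsClosed {q : ℝ × AA a | q.2.1.2 ≤ a} :=
    isClosed_le (continuous_snd.comp (continuous_subtype_val.comp continuous_snd)) continuous_const
  have hc2 : Continuous (fun q : ℝ × AA a => q.2.1.2) :=
    continuous_snd.comp (continuous_subtype_val.comp continuous_snd)
  have hgc : Continuous (fun q : ℝ × AA a => gam (max a q.2.1.2)) := by
    rw [continuous_iff_continuousAt]
    intro q
    have : max a q.2.1.2 ≠ 0 := (lt_of_lt_of_le ha (le_max_left _ _)).ne'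
    exact ContinuousAt.comp (f := fun q : ℝ × AA a => max a q.2.1.2) (continuousAt_gam this)
      (continuous_const.max hc2).continuousAt
  have hS2 : IsClosed {q : ℝ × AA a | a ≤ q.2.1.2 ∧ q.2.1.1 = gam (max a q.2.1.2)} := by
    apply IsClosed.inter (isClosed_le continuous_const hc2)
    exact isClosed_eq (continuous_fst.comp (continuous_subtype_val.comp continuous_snd)) hgc
  have hU : {q : ℝ × AA a | q.2.1.2 ≤ a} ∪
      {q : ℝ × AA a | a ≤ q.2.1.2 ∧ q.2.1.1 = gam (max a q.2.1.2)} = univ := by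
    apply eq_univ_of_forall
    rintro ⟨τ, p⟩
    by_cases h : p.1.2 ≤ a
    · exact Or.inl h
    · push Not at h
      refine Or.inr ⟨h.le, ?_⟩
      show p.1.1 = gam (max a p.1.2)
      rw [max_eq_right h.le]
      exact p.2.2.2.2 h
  rw [← continuousOn_univ, ← hU]
  apply ContinuousOn.union_of_isClosed _ _ hS1 hS2
  · have : ContinuousOn (fun q : ℝ × AA a => q.2.1) {q : ℝ × AA a | q.2.1.2 ≤ a} :=
      (continuous_subtype_val.comp continuous_snd).continuousOn
    apply this.congr
    intro q hq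
    have hq' : q.2.1.2 ≤ a := hq
    simp only [R]
    rw [if_pos hq']
  · have hm : Continuous (fun q : ℝ × AA a => max a (min q.2.1.2 (max a q.1))) :=
      continuous_const.max (hc2.min (continuous_const.max continuous_fst))
    have : Continuous (fun q : ℝ × AA a =>
        ((gam (max a (min q.2.1.2 (max a q.1))), max a (min q.2.1.2 (max a q.1))) : ℂ × ℝ)) := by
      apply Continuous.prodMk _ hm
      rw [continuous_iff_continuousAt]
      intro q
      have : max a (min q.2.1.2 (max a q.1)) ≠ 0 := (lt_of_lt_of_le ha (le_max_left _ _)).ne'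
      exact ContinuousAt.comp (f := fun q : ℝ × AA a => max a (min q.2.1.2 (max a q.1)))
        (continuousAt_gam this) hm.continuousAt
    apply this.continuousOn.congr
    rintro ⟨τ, p⟩ ⟨h1, h2⟩
    simp only at h1 h2 ⊢
    have hmin : max a (min p.1.2 (max a τ)) = min p.1.2 (max a τ) :=
      max_eq_right (le_min h1 (le_max_left _ _))
    rw [hmin]
    unfold R
    split_ifs with h
    · have he : p.1.2 = a := le_antisymm h h1
      rw [he] at h2 ⊢
      rw [min_eq_left (le_max_left _ _)]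
      rw [max_self] at h2
      rw [← h2]
      apply Prod.ext
      · rfl
      · exact he
    · rfl

theorem contractible_AA {a : ℝ} (ha : 0 < a) (ha1 : a ≤ 1) : ContractibleSpace (AA a) := by
  rw [contractible_iff_id_nullhomotopic]
  have h0 : ((0, 0) : ℂ × ℝ) ∈ AA a := ⟨by simp, le_rfl, zero_le_one, fun h => by
    exfalso
    exact absurd h (not_lt.mpr ha.le)⟩
  refine ⟨⟨(0, 0), h0⟩, ?_⟩
  -- first homotopy
  have hR : ∀ (τ : ℝ) (p : AA a), R a τ p.1 ∈ AA a := fun τ p => R_mem ha p.2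
  let ρ : C(AA a, AA a) := ⟨fun p => ⟨R a 0 p.1, hR 0 p⟩, by
    apply Continuous.subtype_mk
    exact (continuous_R ha).comp (continuous_const.prodMk continuous_id)⟩
  have H1 : ContinuousMap.Homotopic (ContinuousMap.id (AA a)) ρ := by
    refine ⟨⟨⟨fun q => ⟨R a (1 - q.1.1) q.2.1, hR _ q.2⟩, ?_⟩, ?_, ?_⟩⟩
    · apply Continuous.subtype_mk
      exact (continuous_R ha).comp
        ((continuous_const.sub (continuous_subtype_val.comp continuous_fst)).prodMk continuous_snd)
    · intro p
      apply Subtype.ext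
      simp only [Set.Icc.coe_zero, sub_zero, ContinuousMap.id_apply]
      unfold R
      split_ifs with h
      · rfl
      · push Not at h
        rw [max_eq_right ha1, min_eq_left p.2.2.2.1]
        exact Prod.ext (p.2.2.2.2 h).symm rfl
    · intro p
      apply Subtype.ext
      simp only [Set.Icc.coe_one, sub_self]
      rfl
  have hρ : ∀ p : AA a, (R a 0 p.1).2 ≤ a := by
    intro p
    unfold R
    split_ifs with h
    · exact h
    · rw [max_eq_left ha.le]
      exact min_le_right _ _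
  have hsc : ∀ (t : unitInterval) (p : AA a), ((1 - t.1 : ℝ) • R a 0 p.1) ∈ AA a := by
    intro t p
    obtain ⟨h1, h2, h3, _⟩ := hR 0 p
    have ht0 : 0 ≤ 1 - t.1 := by linarith [t.2.2]
    have ht1 : 1 - t.1 ≤ 1 := by linarith [t.2.1]
    refine ⟨?_, ?_, ?_, ?_⟩
    · rw [Prod.smul_fst, norm_smul, Real.norm_of_nonneg ht0]
      calc (1 - t.1) * ‖(R a 0 p.1).1‖ ≤ 1 * 1 := mul_le_mul ht1 h1 (norm_nonneg _) zero_le_one
        _ = 1 := one_mul _
    · rw [Prod.smul_snd]
      exact mul_nonneg ht0 h2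
    · rw [Prod.smul_snd]
      calc (1 - t.1) * (R a 0 p.1).2 ≤ 1 * 1 := mul_le_mul ht1 h3 h2 zero_le_one
        _ = 1 := one_mul _
    · intro h
      exfalso
      rw [Prod.smul_snd, smul_eq_mul] at h
      have : (1 - t.1) * (R a 0 p.1).2 ≤ 1 * a := mul_le_mul ht1 (hρ p) h2 zero_le_one
      linarith
  have H2 : ContinuousMap.Homotopic ρ (ContinuousMap.const (AA a) ⟨(0, 0), h0⟩) := by
    refine ⟨⟨⟨fun q => ⟨(1 - q.1.1 : ℝ) • R a 0 q.2.1, hsc q.1 q.2⟩, ?_⟩, ?_, ?_⟩⟩
    · apply Continuous.subtype_mk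
      have c1 : Continuous (fun q : unitInterval × AA a => (1 - q.1.1 : ℝ)) :=
        continuous_const.sub (continuous_subtype_val.comp continuous_fst)
      have c2 : Continuous (fun q : unitInterval × AA a => R a 0 q.2.1) :=
        (continuous_R ha).comp (continuous_const.prodMk continuous_snd)
      exact c1.smul c2
    · intro p
      apply Subtype.ext
      simp only [Set.Icc.coe_zero, sub_zero, one_smul]
      rfl
    · intro p
      apply Subtype.ext
      simp only [Set.Icc.coe_one, sub_self, zero_smul]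
      rfl
  exact H1.trans H2

theorem nested (ε : ℝ) (hε : 0 < ε) : ∃ A : Set (ℂ × ℝ), AA 0 ⊆ A ∧ IsCompact A ∧
    ContractibleSpace A ∧ ∀ p ∈ A, ∃ k ∈ AA 0, dist p k < ε := by
  have ha : 0 < min 1 (ε / 2) := by positivity
  refine ⟨AA (min 1 (ε / 2)), ?_, isCompact_AA ha.le, contractible_AA ha (min_le_left _ _), ?_⟩
  · rintro p ⟨h1, h2, h3, h4⟩
    exact ⟨h1, h2, h3, fun h => h4 (ha.trans h)⟩
  · rintro p ⟨h1, h2, h3, h4⟩
    by_cases h : p.2 ≤ min 1 (ε / 2)
    · refine ⟨(p.1, 0), ⟨h1, le_rfl, zero_le_one, fun h => absurd h (lt_irrefl _)⟩, ?_⟩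
      rw [Prod.dist_eq]
      simp only [dist_self, dist_zero_right]
      apply max_lt hε
      rw [Real.norm_of_nonneg h2]
      have := min_le_right 1 (ε / 2)
      linarith
    · push Not at h
      exact ⟨p, ⟨h1, h2, h3, fun _ => h4 h⟩, by simpa using hε⟩


/-! ### density and connectedness -/

theorem dense_ray (z : ℂ) (hz : ‖z‖ ≤ 1) (ε : ℝ) (hε : 0 < ε) :
    ∃ s, 0 < s ∧ s < ε ∧ dist (gam s) z < ε := by
  have hπ := Real.pi_pos
  obtain ⟨n, hn⟩ := exists_nat_gt ((2 * Real.pi + 1) / ε)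
  set ρ := ‖z‖ with hρ
  set α := Complex.arg z with hα
  set θ := Real.arcsin ρ with hθ
  have hρ0 : 0 ≤ ρ := norm_nonneg z
  have hθ0 : 0 ≤ θ := Real.arcsin_nonneg.mpr hρ0
  have hsθ : Real.sin θ = ρ := Real.sin_arcsin (by linarith) hz
  set t0 : ℝ := θ + n * (2 * Real.pi) with ht0
  have hn1 : (0 : ℝ) ≤ n := Nat.cast_nonneg n
  have hbig : (2 * Real.pi + 1) / ε < t0 := by
    have h3 := Real.pi_gt_three
    nlinarith
  have hq : 0 < (2 * Real.pi + 1) / ε := by positivity
  have ht0pos : 0 < t0 := hq.trans hbig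
  have hst0 : Real.sin t0 = ρ := by
    rw [ht0, Real.sin_add_nat_mul_two_pi, hsθ]
  set m : ℤ := ⌈(t0 ^ 2 - α) / (2 * Real.pi)⌉ with hm
  set T : ℝ := α + m * (2 * Real.pi) with hT
  have h1 : t0 ^ 2 ≤ T := by
    have := Int.le_ceil ((t0 ^ 2 - α) / (2 * Real.pi))
    rw [div_le_iff₀ (by positivity)] at this
    rw [hT]; linarith
  have h2 : T < t0 ^ 2 + 2 * Real.pi := by
    have := Int.ceil_lt_add_one ((t0 ^ 2 - α) / (2 * Real.pi))
    rw [← hm, ← sub_lt_iff_lt_add, lt_div_iff₀ (by positivity)] at this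
    rw [hT]; linarith
  set t := Real.sqrt T with ht
  have hTpos : 0 < T := lt_of_lt_of_le (by positivity) h1
  have htt : t ^ 2 = T := Real.sq_sqrt hTpos.le
  have ht0t : t0 ≤ t := by
    rw [ht]; exact Real.le_sqrt_of_sq_le h1
  have htpos : 0 < t := ht0pos.trans_le ht0t
  have hdiff : t - t0 ≤ 2 * Real.pi / t0 := by
    rw [le_div_iff₀ ht0pos]
    nlinarith
  have hsmall : (2 * Real.pi + 1) / t0 < ε := by
    rw [div_lt_iff₀ ht0pos]
    rw [div_lt_iff₀ hε] at hbig
    linarith
  have hsplit : (2 * Real.pi + 1) / t0 = 2 * Real.pi / t0 + 1 / t0 := by rw [add_div]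
  have h1t0 : 0 < 1 / t0 := by positivity
  have h2t0 : 0 < 2 * Real.pi / t0 := by positivity
  refine ⟨1 / t, by positivity, ?_, ?_⟩
  · have : 1 / t ≤ 1 / t0 := one_div_le_one_div_of_le ht0pos ht0t
    linarith
  · have e1 : (1 : ℝ) / (1 / t) = t := by field_simp
    have e2 : (1 : ℝ) / (1 / t) ^ 2 = T := by rw [← htt]; field_simp
    have e3 : gam (1 / t) = (Real.sin t : ℂ) * Complex.exp (α * Complex.I) := by
      rw [gam, e1, e2]
      congr 1
      have : ((T : ℝ) : ℂ) * Complex.I = α * Complex.I + m * (2 * Real.pi * Complex.I) := by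
        rw [hT]; push_cast; ring
      rw [this, Complex.exp_add, Complex.exp_int_mul_two_pi_mul_I, mul_one]
    have e4 : z = (ρ : ℂ) * Complex.exp (α * Complex.I) := (Complex.norm_mul_exp_arg_mul_I z).symm
    rw [e3, e4, dist_eq_norm, ← sub_mul, norm_mul, Complex.norm_exp_ofReal_mul_I, mul_one,
      ← Complex.ofReal_sub, Complex.norm_real, ← hst0, Real.norm_eq_abs]
    have h5 : |Real.sin t - Real.sin t0| ≤ |t - t0| := by
      have := Real.lipschitzWith_sin.dist_le_mul t t0
      simpa [Real.dist_eq] using this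
    rw [abs_of_nonneg (sub_nonneg.mpr ht0t)] at h5
    linarith

theorem disc_subset_closure (T : Set ℝ) (s0 : ℝ) (h0 : 0 < s0) (hs0 : Ioc 0 s0 ⊆ T) :
    {p : ℂ × ℝ | ‖p.1‖ ≤ 1 ∧ p.2 = 0} ⊆ closure ((fun s : ℝ => ((gam s, s) : ℂ × ℝ)) '' T) := by
  rintro ⟨z, s⟩ ⟨hz, hs⟩
  simp only at hz hs
  subst hs
  rw [Metric.mem_closure_iff]
  intro ε hε
  obtain ⟨s, hs1, hs2, hs3⟩ := dense_ray z hz (min ε s0) (by positivity)
  refine ⟨(gam s, s), ⟨s, hs0 ⟨hs1, (hs2.le.trans (min_le_right _ _))⟩, rfl⟩, ?_⟩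
  rw [dist_comm, Prod.dist_eq]
  simp only [dist_zero_right]
  rw [Real.norm_of_nonneg hs1.le]
  exact max_lt (hs3.trans_le (min_le_left _ _)) (hs2.trans_le (min_le_left _ _))

theorem conn (T : Set ℝ) (hT : T.OrdConnected) (hT1 : T ⊆ Ioc 0 1) (s0 : ℝ) (h0 : 0 < s0)
    (hs0 : Ioc 0 s0 ⊆ T) :
    IsPreconnected ({p : ℂ × ℝ | ‖p.1‖ ≤ 1 ∧ p.2 = 0} ∪
      (fun s : ℝ => ((gam s, s) : ℂ × ℝ)) '' T) := by
  have h1 : IsPreconnected ((fun s : ℝ => ((gam s, s) : ℂ × ℝ)) '' T) := by
    apply hT.isPreconnected.image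
    intro s hs
    apply ContinuousAt.continuousWithinAt
    exact (continuousAt_gam (hT1 hs).1.ne').prodMk continuousAt_id
  apply h1.subset_closure subset_union_right
  apply union_subset (disc_subset_closure T s0 h0 hs0) subset_closure

theorem AA_zero_eq : AA 0 = {p : ℂ × ℝ | ‖p.1‖ ≤ 1 ∧ p.2 = 0} ∪
      (fun s : ℝ => ((gam s, s) : ℂ × ℝ)) '' (Ioc 0 1) := by
  ext p
  constructor
  · rintro ⟨h1, h2, h3, h4⟩
    rcases h2.eq_or_lt with h | h
    · exact Or.inl ⟨h1, h.symm⟩
    · exact Or.inr ⟨p.2, ⟨h, h3⟩, Prod.ext (h4 h).symm rfl⟩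
  · rintro (⟨h1, h2⟩ | ⟨s, ⟨hs1, hs2⟩, rfl⟩)
    · exact ⟨h1, h2.ge, by rw [h2]; exact zero_le_one, fun h => absurd h (by rw [h2]; exact lt_irrefl _)⟩
    · exact ⟨norm_gam s, hs1.le, hs2, fun _ => rfl⟩

theorem isPreconnected_AA : IsPreconnected (AA 0) := by
  rw [AA_zero_eq]
  exact conn _ ordConnected_Ioc subset_rfl 1 one_pos subset_rfl

/-! ### the map -/

/-- first component of the collapse of the disc onto the sphere -/
def zeta (z : ℂ) : ℂ := ((2 * Real.sqrt (1 - ‖z‖ ^ 2) : ℝ) : ℂ) * z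

/-- second component of the collapse of the disc onto the sphere -/
def hh (z : ℂ) : ℝ := 2 * ‖z‖ ^ 2 - 1

theorem continuous_zeta : Continuous zeta := by
  unfold zeta
  fun_prop

theorem continuous_hh : Continuous hh := by
  unfold hh
  fun_prop

theorem sphere_eq {z : ℂ} (hz : ‖z‖ ≤ 1) : ‖zeta z‖ ^ 2 + hh z ^ 2 = 1 := by
  have h1 : 0 ≤ 1 - ‖z‖ ^ 2 := by nlinarith [norm_nonneg z]
  rw [zeta, hh, norm_mul, Complex.norm_real, Real.norm_of_nonneg (by positivity), mul_pow, mul_pow,
    Real.sq_sqrt h1]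
  ring

theorem same_of_eq {z z' : ℂ} (hz : ‖z‖ ≤ 1) (h1 : zeta z = zeta z') (h2 : hh z = hh z') :
    z = z' ∨ (‖z‖ = 1 ∧ ‖z'‖ = 1) := by
  have h3 : ‖z‖ ^ 2 = ‖z'‖ ^ 2 := by unfold hh at h2; linarith
  have h4 : ‖z‖ = ‖z'‖ := by
    rwa [sq_eq_sq₀ (norm_nonneg _) (norm_nonneg _)] at h3
  by_cases h : ‖z‖ = 1
  · exact Or.inr ⟨h, h4 ▸ h⟩
  · left
    have h5 : ‖z‖ < 1 := lt_of_le_of_ne hz h
    have h6 : 0 < 1 - ‖z‖ ^ 2 := by nlinarith [norm_nonneg z]
    unfold zeta at h1
    rw [← h3] at h1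
    have h7 : ((2 * Real.sqrt (1 - ‖z‖ ^ 2) : ℝ) : ℂ) ≠ 0 := by
      rw [Complex.ofReal_ne_zero]
      have := Real.sqrt_pos.mpr h6
      positivity
    exact mul_left_cancel₀ h7 h1

theorem antipode {z : ℂ} (hz : ‖z‖ ≤ 1) :
    ∃ z', ‖z'‖ ≤ 1 ∧ zeta z' = -zeta z ∧ hh z' = -hh z := by
  by_cases h : z = 0
  · subst h
    refine ⟨1, by simp, ?_, ?_⟩
    · simp [zeta]
    · simp [hh]; norm_num
  · have hz0 : 0 < ‖z‖ := norm_pos_iff.mpr h
    have h1 : 0 ≤ 1 - ‖z‖ ^ 2 := by nlinarith [norm_nonneg z]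
    have hn : ‖((-(Real.sqrt (1 - ‖z‖ ^ 2) / ‖z‖) : ℝ) : ℂ) * z‖ = Real.sqrt (1 - ‖z‖ ^ 2) := by
      rw [norm_mul, Complex.norm_real, norm_neg, Real.norm_of_nonneg (by positivity)]
      field_simp
    have hn2 : ‖((-(Real.sqrt (1 - ‖z‖ ^ 2) / ‖z‖) : ℝ) : ℂ) * z‖ ^ 2 = 1 - ‖z‖ ^ 2 := by
      rw [hn, Real.sq_sqrt h1]
    refine ⟨((-(Real.sqrt (1 - ‖z‖ ^ 2) / ‖z‖) : ℝ) : ℂ) * z, ?_, ?_, ?_⟩
    · rw [hn]
      exact Real.sqrt_le_iff.mpr ⟨zero_le_one, by nlinarith⟩
    · rw [zeta, hn2, zeta]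
      have : Real.sqrt (1 - (1 - ‖z‖ ^ 2)) = ‖z‖ := by
        rw [sub_sub_cancel, Real.sqrt_sq (norm_nonneg z)]
      rw [this, ← mul_assoc, ← Complex.ofReal_mul, ← neg_mul, ← Complex.ofReal_neg]
      congr 2
      field_simp
    · rw [hh, hn2, hh]; ring

/-- the map of the disc onto the projective plane -/
def Fm (z : ℂ) : ℂ × ℂ := (zeta z ^ 2, zeta z * (hh z : ℂ))

theorem continuous_Fm : Continuous Fm := by
  unfold Fm
  exact (continuous_zeta.pow 2).prodMk
    (continuous_zeta.mul (Complex.continuous_ofReal.comp continuous_hh))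

theorem Fm_eq {z z' : ℂ} (hz : ‖z‖ ≤ 1) (hz' : ‖z'‖ ≤ 1) (h : Fm z = Fm z') :
    (zeta z' = zeta z ∧ hh z' = hh z) ∨ (zeta z' = -zeta z ∧ hh z' = -hh z) := by
  unfold Fm at h
  rw [Prod.mk.injEq] at h
  obtain ⟨h1, h2⟩ := h
  have s1 := sphere_eq hz
  have s2 := sphere_eq hz'
  by_cases h0 : zeta z = 0
  · have h0' : zeta z' = 0 := by
      rw [h0] at h1
      simpa using h1.symm
    rw [h0, norm_zero] at s1
    rw [h0', norm_zero] at s2
    rw [h0, h0']
    have e : hh z' ^ 2 = hh z ^ 2 := by linarith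
    rcases sq_eq_sq_iff_eq_or_eq_neg.mp e with e | e
    · left; exact ⟨rfl, e⟩
    · right; exact ⟨by simp, e⟩
  · rcases sq_eq_sq_iff_eq_or_eq_neg.mp h1 with e | e
    · left
      rw [← e] at h2 ⊢
      have := mul_left_cancel₀ h0 h2
      exact ⟨rfl, by exact_mod_cast this.symm⟩
    · right
      have e' : zeta z' = -zeta z := by rw [e, neg_neg]
      rw [e'] at h2 ⊢
      have h3 : zeta z * (hh z : ℂ) = zeta z * (-(hh z') : ℂ) := by rw [h2]; ring
      have := mul_left_cancel₀ h0 h3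
      refine ⟨rfl, ?_⟩
      have h4 : (hh z : ℂ) = ((-(hh z') : ℝ) : ℂ) := by rw [this]; push_cast; ring
      have h5 := Complex.ofReal_injective h4
      linarith

theorem Fm_of_neg {z z' : ℂ} (h1 : zeta z' = -zeta z) (h2 : hh z' = -hh z) : Fm z' = Fm z := by
  unfold Fm
  rw [h1, h2]
  push_cast
  rw [Prod.mk.injEq]
  constructor <;> ring

theorem Fm_of_eq {z z' : ℂ} (h1 : zeta z' = zeta z) (h2 : hh z' = hh z) : Fm z' = Fm z := by
  unfold Fm
  rw [h1, h2]

/-- the map on the ambient space -/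
def Phi (p : ℂ × ℝ) : (ℂ × ℂ) × ℝ := (Fm p.1, p.2)

theorem continuous_Phi : Continuous Phi :=
  (continuous_Fm.comp continuous_fst).prodMk continuous_snd

/-- the domain -/
abbrev XX : Type := AA 0

/-- the range -/
abbrev YY : Type := (Phi '' AA 0 : Set ((ℂ × ℂ) × ℝ))

/-- the confluent map -/
def ff (p : XX) : YY := ⟨Phi p.1, ⟨p.1, p.2, rfl⟩⟩

theorem continuous_ff : Continuous ff :=
  Continuous.subtype_mk (continuous_Phi.comp continuous_subtype_val) _

theorem surjective_ff : Function.Surjective ff := by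
  rintro ⟨y, p, hp, rfl⟩
  exact ⟨⟨p, hp⟩, rfl⟩

theorem ff_snd (p : XX) : (ff p).1.2 = p.1.2 := rfl

theorem ff_eq_iff {p q : XX} : ff p = ff q ↔ Fm p.1.1 = Fm q.1.1 ∧ p.1.2 = q.1.2 := by
  rw [Subtype.ext_iff]
  exact Prod.mk.injEq _ _ _ _ ▸ Iff.rfl

theorem inj_pos {p q : XX} (h : ff p = ff q) (hp : 0 < p.1.2) : p = q := by
  obtain ⟨_, h2⟩ := ff_eq_iff.mp h
  apply Subtype.ext
  apply Prod.ext
  · rw [p.2.2.2.2 hp, q.2.2.2.2 (h2 ▸ hp), h2]
  · exact h2

/-- A mapping `f` is confluent if for every subcontinuum (closed connected nonempty subset) `K` of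
the range, every component of `f⁻¹(K)` is mapped by `f` onto `K`. -/
def Confluent {X Y : Type*} [TopologicalSpace X] [TopologicalSpace Y] (f : X → Y) : Prop :=
  ∀ K : Set Y, IsClosed K → IsConnected K →
    ∀ x ∈ f ⁻¹' K, f '' (connectedComponentIn (f ⁻¹' K) x) = K

theorem confluent_of_split {X Y : Type*} [TopologicalSpace X] [CompactSpace X] [T2Space X]
    [TopologicalSpace Y] [T2Space Y] (f : X → Y) (hf : Continuous f)
    (H : ∀ K : Set Y, IsClosed K → IsConnected K → ∀ A B : Set X, IsClosed A → IsClosed B →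
      Disjoint A B → A ∪ B = f ⁻¹' K → A.Nonempty → K ⊆ f '' A) : Confluent f := by
  intro K hK hKc x hx
  apply Subset.antisymm
  · rintro _ ⟨z, hz, rfl⟩
    exact (connectedComponentIn_subset (f ⁻¹' K) x hz : z ∈ f ⁻¹' K)
  · intro y hy
    have hM : IsClosed (f ⁻¹' K) := hK.preimage hf
    have hcs : CompactSpace (f ⁻¹' K : Set X) := isCompact_iff_compactSpace.mp hM.isCompact
    -- clopen subsets of the preimage
    have key : ∀ Z : Set (f ⁻¹' K : Set X), IsClopen Z → (⟨x, hx⟩ : (f ⁻¹' K : Set X)) ∈ Z →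
        (Z ∩ {m | f m.1 = y}).Nonempty := by
      intro Z hZ hxZ
      have h1 : IsClosed (Subtype.val '' Z) :=
        hM.isClosedMap_subtype_val _ hZ.1
      have h2 : IsClosed (Subtype.val '' Zᶜ) :=
        hM.isClosedMap_subtype_val _ hZ.compl.1
      have h3 : Disjoint (Subtype.val '' Z) (Subtype.val '' Zᶜ) :=
        (disjoint_compl_right).image Subtype.val_injective.injOn (subset_univ _) (subset_univ _)
      have h4 : Subtype.val '' Z ∪ Subtype.val '' Zᶜ = f ⁻¹' K := by
        rw [← image_union, union_compl_self, image_univ, Subtype.range_coe]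
      obtain ⟨z, ⟨m, hm, rfl⟩, hz⟩ := H K hK hKc _ _ h1 h2 h3 h4 ⟨x, ⟨x, hx⟩, hxZ, rfl⟩ hy
      exact ⟨m, hm, hz⟩
    have hcl : IsClosed {m : (f ⁻¹' K : Set X) | f m.1 = y} :=
      isClosed_eq (hf.comp continuous_subtype_val) continuous_const
    have hne : (⋂ Z : {Z : Set (f ⁻¹' K : Set X) // IsClopen Z ∧ (⟨x, hx⟩ : (f ⁻¹' K : Set X)) ∈ Z},
        (Z.1 ∩ {m | f m.1 = y})).Nonempty := by
      have : Nonempty {Z : Set (f ⁻¹' K : Set X) //
        IsClopen Z ∧ (⟨x, hx⟩ : (f ⁻¹' K : Set X)) ∈ Z} := ⟨⟨univ, isClopen_univ, trivial⟩⟩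
      apply IsCompact.nonempty_iInter_of_directed_nonempty_isCompact_isClosed
      · intro Z W
        refine ⟨⟨Z.1 ∩ W.1, Z.2.1.inter W.2.1, Z.2.2, W.2.2⟩, ?_, ?_⟩
        · exact fun m hm => ⟨hm.1.1, hm.2⟩
        · exact fun m hm => ⟨hm.1.2, hm.2⟩
      · intro Z
        exact key Z.1 Z.2.1 Z.2.2
      · intro Z
        exact (Z.2.1.1.inter hcl).isCompact
      · intro Z
        exact Z.2.1.1.inter hcl
    obtain ⟨m, hm⟩ := hne
    rw [mem_iInter] at hm
    have hmc : m ∈ connectedComponent (⟨x, hx⟩ : (f ⁻¹' K : Set X)) := by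
      rw [connectedComponent_eq_iInter_isClopen, mem_iInter]
      intro Z
      exact (hm Z).1
    refine ⟨m.1, ?_, (hm ⟨univ, isClopen_univ, trivial⟩).2⟩
    rw [connectedComponentIn_eq_image hx]
    exact ⟨m, hmc, rfl⟩

/-! ### confluence of the map -/

theorem disc_mem {z : ℂ} (hz : ‖z‖ ≤ 1) : ((z, 0) : ℂ × ℝ) ∈ AA 0 :=
  ⟨hz, le_rfl, zero_le_one, fun h => absurd h (lt_irrefl _)⟩

theorem ray_mem {s : ℝ} (hs : s ∈ Ioc (0 : ℝ) 1) : ((gam s, s) : ℂ × ℝ) ∈ AA 0 :=
  ⟨norm_gam s, hs.1.le, hs.2, fun _ => rfl⟩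

theorem eq_ray {p : XX} (h : 0 < p.1.2) : p = ⟨(gam p.1.2, p.1.2), ray_mem ⟨h, p.2.2.2.1⟩⟩ :=
  Subtype.ext (Prod.ext (p.2.2.2.2 h) rfl)

theorem preconn_of_both (K : Set YY) (hK : IsClosed K) (hKc : IsConnected K)
    (h0 : ∃ y ∈ K, y.1.2 = 0) (h1 : ∃ y ∈ K, 0 < y.1.2) : IsPreconnected (ff ⁻¹' K) := by
  obtain ⟨y0, hy0, hy00⟩ := h0
  obtain ⟨y1, hy1, hy11⟩ := h1
  -- heights
  set Hs : Set ℝ := (fun y : YY => y.1.2) '' K with hHs
  have hHo : Hs.OrdConnected :=
    (hKc.isPreconnected.image _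
      (continuous_snd.comp continuous_subtype_val).continuousOn).ordConnected
  have hH0 : (0 : ℝ) ∈ Hs := ⟨y0, hy0, hy00⟩
  have hH1 : y1.1.2 ∈ Hs := ⟨y1, hy1, rfl⟩
  -- points of positive height are on the ray
  have hheight : ∀ p : XX, 0 < p.1.2 → (ff p ∈ K ↔ p.1.2 ∈ Hs) := by
    intro p hp
    constructor
    · intro h; exact ⟨ff p, h, rfl⟩
    · rintro ⟨y, hy, hyp⟩
      obtain ⟨q, rfl⟩ := surjective_ff y
      have hq : q.1.2 = p.1.2 := hyp
      have : q = p := by
        rw [eq_ray hp, eq_ray (p := q) (hq ▸ hp)]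
        apply Subtype.ext
        simp only [hq]
      rwa [this] at hy
  have hy1le : y1.1.2 ≤ 1 := by
    obtain ⟨q, rfl⟩ := surjective_ff y1
    exact q.2.2.2.1
  have htail : Ioc 0 y1.1.2 ⊆ Ioc 0 1 ∩ Hs := fun s hs =>
    ⟨⟨hs.1, hs.2.trans hy1le⟩, hHo.out hH0 hH1 ⟨hs.1.le, hs.2⟩⟩
  -- the disc is contained in the preimage
  have hdisc : ∀ p : XX, p.1.2 = 0 → ff p ∈ K := by
    intro p hp
    have hcl : IsClosed (Subtype.val '' (ff ⁻¹' K)) :=
      (isClosed_AA le_rfl).isClosedMap_subtype_val _ (hK.preimage continuous_ff)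
    have hsub : (fun s : ℝ => ((gam s, s) : ℂ × ℝ)) '' (Ioc 0 1 ∩ Hs) ⊆
        Subtype.val '' (ff ⁻¹' K) := by
      rintro _ ⟨s, ⟨hs1, hs2⟩, rfl⟩
      refine ⟨⟨(gam s, s), ray_mem hs1⟩, ?_, rfl⟩
      exact (hheight _ hs1.1).mpr hs2
    have := (disc_subset_closure _ _ hy11 htail).trans (closure_minimal hsub hcl)
    obtain ⟨q, hq, hqp⟩ := this (show p.1 ∈ {p : ℂ × ℝ | ‖p.1‖ ≤ 1 ∧ p.2 = 0} from ⟨p.2.1, hp⟩)
    have : q = p := Subtype.ext hqp
    rwa [this] at hq
  rw [← Topology.IsInducing.subtypeVal.isPreconnected_image]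
  have hset : Subtype.val '' (ff ⁻¹' K) = {p : ℂ × ℝ | ‖p.1‖ ≤ 1 ∧ p.2 = 0} ∪
      (fun s : ℝ => ((gam s, s) : ℂ × ℝ)) '' (Ioc 0 1 ∩ Hs) := by
    ext p
    constructor
    · rintro ⟨q, hq, rfl⟩
      rcases q.2.2.1.eq_or_lt with h | h
      · exact Or.inl ⟨q.2.1, h.symm⟩
      · refine Or.inr ⟨q.1.2, ⟨⟨h, q.2.2.2.1⟩, (hheight q h).mp hq⟩, ?_⟩
        exact Prod.ext (q.2.2.2.2 h).symm rfl
    · rintro (⟨h1, h2⟩ | ⟨s, ⟨hs1, hs2⟩, rfl⟩)
      · refine ⟨⟨p, ?_⟩, hdisc _ h2, rfl⟩
        have : p = (p.1, 0) := Prod.ext rfl h2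
        rw [this]; exact disc_mem h1
      · exact ⟨⟨(gam s, s), ray_mem hs1⟩, (hheight _ hs1.1).mpr hs2, rfl⟩
  rw [hset]
  exact conn _ (ordConnected_Ioc.inter hHo) inter_subset_left _ hy11 htail

theorem circle_preconn : IsPreconnected {p : XX | ‖p.1.1‖ = 1 ∧ p.1.2 = 0} := by
  rw [← Topology.IsInducing.subtypeVal.isPreconnected_image]
  have h1 : IsPreconnected (Metric.sphere (0 : ℂ) 1) :=
    isPreconnected_sphere (by rw [Complex.rank_real_complex]; norm_num) 0 1
  have h2 : IsPreconnected ((fun z : ℂ => ((z, 0) : ℂ × ℝ)) '' Metric.sphere (0 : ℂ) 1) :=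
    h1.image _ (by fun_prop)
  convert h2 using 1
  ext p
  constructor
  · rintro ⟨q, ⟨hq1, hq2⟩, rfl⟩
    exact ⟨q.1.1, by simpa using hq1, Prod.ext rfl hq2.symm⟩
  · rintro ⟨z, hz, rfl⟩
    have hz' : ‖z‖ = 1 := by simpa using hz
    exact ⟨⟨(z, 0), disc_mem hz'.le⟩, ⟨hz', rfl⟩, rfl⟩

instance : CompactSpace XX := isCompact_iff_compactSpace.mp (isCompact_AA le_rfl)

instance : CompactSpace YY :=
  isCompact_iff_compactSpace.mp ((isCompact_AA le_rfl).image continuous_Phi)

theorem nonempty_AA : (AA 0).Nonempty := ⟨(0, 0), disc_mem (by simp)⟩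

instance : ConnectedSpace XX :=
  isConnected_iff_connectedSpace.mp ⟨nonempty_AA, isPreconnected_AA⟩

instance : ConnectedSpace YY :=
  isConnected_iff_connectedSpace.mp
    (IsConnected.image ⟨nonempty_AA, isPreconnected_AA⟩ _ continuous_Phi.continuousOn)

theorem confluent_ff : Confluent ff := by
  apply confluent_of_split ff continuous_ff
  intro K hK hKc A B hA hB hAB hU hAne
  have hAK : ∀ a ∈ A, ff a ∈ K := fun a ha => by
    have : a ∈ ff ⁻¹' K := hU ▸ Or.inl ha
    exact this
  have hBK : ∀ b ∈ B, ff b ∈ K := fun b hb => by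
    have : b ∈ ff ⁻¹' K := hU ▸ Or.inr hb
    exact this
  have hcov : ∀ x : XX, ff x ∈ K → x ∈ A ∨ x ∈ B := fun x hx => by
    have : x ∈ A ∪ B := hU ▸ hx
    exact this
  have hdisj : ∀ x, x ∈ A → x ∈ B → False := fun x h1 h2 => Set.disjoint_left.mp hAB h1 h2
  have hnonneg : ∀ y ∈ K, 0 ≤ y.1.2 := by
    intro y _
    obtain ⟨q, rfl⟩ := surjective_ff y
    exact q.2.2.1
  by_cases h0 : ∃ y ∈ K, y.1.2 = 0
  · by_cases h1 : ∃ y ∈ K, 0 < y.1.2
    · -- both heights occur: the preimage is connected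
      have hpre := preconn_of_both K hK hKc h0 h1
      rw [isPreconnected_iff_subset_of_disjoint_closed] at hpre
      have := hpre A B hA hB hU.ge (by
        rw [hAB.inter_eq, inter_empty])
      rcases this with h | h
      · intro y hy
        obtain ⟨x, rfl⟩ := surjective_ff y
        exact ⟨x, h hy, rfl⟩
      · exfalso
        obtain ⟨a, ha⟩ := hAne
        exact hdisj a ha (h (hAK a ha))
    · -- all heights are zero
      push Not at h1
      have hz : ∀ y ∈ K, y.1.2 = 0 := fun y hy => le_antisymm (h1 y hy) (hnonneg y hy)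
      -- saturation
      have hsat : ∀ a b : XX, ff a ∈ K → b ∈ B → zeta b.1.1 = zeta a.1.1 → hh b.1.1 = hh a.1.1 →
          a ∈ B := by
        intro a b ha hb e1 e2
        have ha0 : a.1.2 = 0 := hz _ ha
        have hb0 : b.1.2 = 0 := hz _ (hBK b hb)
        rcases same_of_eq b.2.1 e1 e2 with h | ⟨h, h'⟩
        · have : b = a := Subtype.ext (Prod.ext h (hb0.trans ha0.symm))
          rwa [← this]
        · have hc := circle_preconn
          rw [isPreconnected_iff_subset_of_disjoint_closed] at hc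
          have hsub : {p : XX | ‖p.1.1‖ = 1 ∧ p.1.2 = 0} ⊆ A ∪ B := by
            rintro p ⟨hp1, hp2⟩
            rw [hU]
            have : ff p = ff b := by
              rw [ff_eq_iff]
              refine ⟨?_, hp2.trans hb0.symm⟩
              apply Fm_of_eq
              · simp [zeta, hp1, h]
              · simp [hh, hp1, h]
            change ff p ∈ K
            rw [this]
            exact hBK b hb
          rcases hc A B hA hB hsub (by rw [hAB.inter_eq, inter_empty]) with h3 | h3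
          · exact (hdisj b (h3 ⟨h, hb0⟩) hb).elim
          · exact h3 ⟨h', ha0⟩
      -- the compact set of points with the whole fibre in `B`
      set D : Set (XX × XX) := {q | q.1 ∈ B ∧ q.2 ∈ B ∧ zeta q.2.1.1 = -zeta q.1.1.1 ∧
        hh q.2.1.1 = -hh q.1.1.1} with hD
      have cz1 : Continuous (fun q : XX × XX => zeta q.1.1.1) :=
        continuous_zeta.comp (continuous_fst.comp (continuous_subtype_val.comp continuous_fst))
      have cz2 : Continuous (fun q : XX × XX => zeta q.2.1.1) :=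
        continuous_zeta.comp (continuous_fst.comp (continuous_subtype_val.comp continuous_snd))
      have ch1 : Continuous (fun q : XX × XX => hh q.1.1.1) :=
        continuous_hh.comp (continuous_fst.comp (continuous_subtype_val.comp continuous_fst))
      have ch2 : Continuous (fun q : XX × XX => hh q.2.1.1) :=
        continuous_hh.comp (continuous_fst.comp (continuous_subtype_val.comp continuous_snd))
      have hDc : IsClosed D := by
        apply (hB.preimage continuous_fst).inter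
        apply (hB.preimage continuous_snd).inter
        exact (isClosed_eq cz2 cz1.neg).inter (isClosed_eq ch2 ch1.neg)
      have hK2 : IsClosed ((fun q : XX × XX => ff q.1) '' D) :=
        (hDc.isCompact.image (continuous_ff.comp continuous_fst)).isClosed
      have hK1 : IsClosed (ff '' A) := (hA.isCompact.image continuous_ff).isClosed
      have hsubK : K ⊆ ff '' A ∪ (fun q : XX × XX => ff q.1) '' D := by
        intro y hy
        obtain ⟨x, rfl⟩ := surjective_ff y
        rcases hcov x hy with hxA | hxB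
        · exact Or.inl ⟨x, hxA, rfl⟩
        · obtain ⟨z', hz1, hz2, hz3⟩ := antipode x.2.1
          have hx0 : x.1.2 = 0 := hz _ hy
          have hff : ff ⟨(z', 0), disc_mem hz1⟩ = ff x := by
            rw [ff_eq_iff]
            exact ⟨Fm_of_neg hz2 hz3, hx0.symm⟩
          rcases hcov ⟨(z', 0), disc_mem hz1⟩ (by rw [hff]; exact hy) with h | h
          · exact Or.inl ⟨_, h, hff⟩
          · exact Or.inr ⟨(x, ⟨(z', 0), disc_mem hz1⟩), ⟨hxB, h, hz2, hz3⟩, rfl⟩
      have hdj : K ∩ (ff '' A ∩ (fun q : XX × XX => ff q.1) '' D) = ∅ := by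
        rw [eq_empty_iff_forall_notMem]
        rintro y ⟨hy, ⟨a, ha, rfl⟩, ⟨⟨b, b'⟩, ⟨hb, hb', e1, e2⟩, hby⟩⟩
        simp only at hb hb' e1 e2 hby
        have hF := (ff_eq_iff.mp hby).1
        rcases Fm_eq b.2.1 a.2.1 hF with ⟨e3, e4⟩ | ⟨e3, e4⟩
        · exact hdisj a ha (hsat a b hy hb e3.symm e4.symm)
        · exact hdisj a ha (hsat a b' hy hb' (e1.trans e3.symm) (e2.trans e4.symm))
      have hKp := hKc.isPreconnected
      rw [isPreconnected_iff_subset_of_disjoint_closed] at hKp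
      rcases hKp _ _ hK1 hK2 hsubK hdj with h | h
      · exact h
      · exfalso
        obtain ⟨a, ha⟩ := hAne
        have : ff a ∈ K ∩ (ff '' A ∩ (fun q : XX × XX => ff q.1) '' D) :=
          ⟨hAK a ha, ⟨a, ha, rfl⟩, h (hAK a ha)⟩
        rw [hdj] at this
        exact this
  · -- all heights are positive
    push Not at h0
    have hpos : ∀ y ∈ K, 0 < y.1.2 := fun y hy => lt_of_le_of_ne (hnonneg y hy) (h0 y hy).symm
    have hK1 : IsClosed (ff '' A) := (hA.isCompact.image continuous_ff).isClosed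
    have hK2 : IsClosed (ff '' B) := (hB.isCompact.image continuous_ff).isClosed
    have hKp := hKc.isPreconnected
    rw [isPreconnected_iff_subset_of_disjoint_closed] at hKp
    have hsubK : K ⊆ ff '' A ∪ ff '' B := by
      intro y hy
      obtain ⟨x, rfl⟩ := surjective_ff y
      rcases hcov x hy with h | h
      · exact Or.inl ⟨x, h, rfl⟩
      · exact Or.inr ⟨x, h, rfl⟩
    have hdj : K ∩ (ff '' A ∩ ff '' B) = ∅ := by
      rw [eq_empty_iff_forall_notMem]
      rintro y ⟨hy, ⟨a, ha, rfl⟩, ⟨b, hb, hby⟩⟩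
      have : a = b := inj_pos hby.symm (hpos _ hy)
      exact hdisj a ha (this ▸ hb)
    rcases hKp _ _ hK1 hK2 hsubK hdj with h | h
    · exact h
    · exfalso
      obtain ⟨a, ha⟩ := hAne
      have : ff a ∈ K ∩ (ff '' A ∩ ff '' B) := ⟨hAK a ha, ⟨a, ha, rfl⟩, h (hAK a ha)⟩
      rw [hdj] at this
      exact this

/-! ### failure of confluence for the square -/

theorem not_confluent_square : ¬ Confluent (Prod.map ff ff) := by
  intro h
  have hL : IsClosed {q : YY × YY | q.1 = q.2} := isClosed_eq continuous_fst continuous_snd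
  have hLc : IsConnected {q : YY × YY | q.1 = q.2} := by
    have : {q : YY × YY | q.1 = q.2} = (fun y : YY => (y, y)) '' univ := by
      ext q
      constructor
      · intro hq
        exact ⟨q.1, trivial, Prod.ext rfl hq⟩
      · rintro ⟨y, _, rfl⟩
        rfl
    rw [this]
    exact isConnected_univ.image _ (continuous_id.prodMk continuous_id).continuousOn
  set x0 : XX := ⟨(0, 0), disc_mem (by simp)⟩ with hx0
  set x1 : XX := ⟨(1, 0), disc_mem (by simp)⟩ with hx1
  have e01 : ff x0 = ff x1 := by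
    rw [ff_eq_iff]
    refine ⟨?_, rfl⟩
    simp [hx0, hx1, Fm, zeta]
  have hm : (x0, x1) ∈ Prod.map ff ff ⁻¹' {q : YY × YY | q.1 = q.2} := e01
  have hC := h _ hL hLc _ hm
  -- a point of height one
  set t : XX := ⟨(gam 1, 1), ray_mem ⟨one_pos, le_rfl⟩⟩ with ht
  have htL : (ff t, ff t) ∈ {q : YY × YY | q.1 = q.2} := rfl
  rw [← hC] at htL
  obtain ⟨⟨a, b⟩, hab, hfab⟩ := htL
  rw [Prod.map_apply, Prod.mk.injEq] at hfab
  have ha : a = t := (inj_pos hfab.1.symm one_pos).symm
  have hb : b = t := (inj_pos hfab.2.symm one_pos).symm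
  rw [ha, hb] at hab
  -- the two closed pieces
  set C := connectedComponentIn (Prod.map ff ff ⁻¹' {q : YY × YY | q.1 = q.2}) (x0, x1) with hCdef
  have hCp : IsPreconnected C := isPreconnected_connectedComponentIn
  have cz1 : Continuous (fun q : XX × XX => zeta q.1.1.1) :=
    continuous_zeta.comp (continuous_fst.comp (continuous_subtype_val.comp continuous_fst))
  have cz2 : Continuous (fun q : XX × XX => zeta q.2.1.1) :=
    continuous_zeta.comp (continuous_fst.comp (continuous_subtype_val.comp continuous_snd))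
  have ch1 : Continuous (fun q : XX × XX => hh q.1.1.1) :=
    continuous_hh.comp (continuous_fst.comp (continuous_subtype_val.comp continuous_fst))
  have ch2 : Continuous (fun q : XX × XX => hh q.2.1.1) :=
    continuous_hh.comp (continuous_fst.comp (continuous_subtype_val.comp continuous_snd))
  have hP : IsClosed {q : XX × XX | zeta q.2.1.1 = zeta q.1.1.1 ∧ hh q.2.1.1 = hh q.1.1.1} :=
    (isClosed_eq cz2 cz1).inter (isClosed_eq ch2 ch1)
  have hN : IsClosed {q : XX × XX | zeta q.2.1.1 = -zeta q.1.1.1 ∧ hh q.2.1.1 = -hh q.1.1.1} :=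
    (isClosed_eq cz2 cz1.neg).inter (isClosed_eq ch2 ch1.neg)
  have hcov : C ⊆ {q : XX × XX | zeta q.2.1.1 = zeta q.1.1.1 ∧ hh q.2.1.1 = hh q.1.1.1} ∪
      {q : XX × XX | zeta q.2.1.1 = -zeta q.1.1.1 ∧ hh q.2.1.1 = -hh q.1.1.1} := by
    intro q hq
    have h1 : ff q.1 = ff q.2 := (connectedComponentIn_subset _ _ hq :
      q ∈ Prod.map ff ff ⁻¹' {q : YY × YY | q.1 = q.2})
    exact Fm_eq q.1.2.1 q.2.2.1 (ff_eq_iff.mp h1).1
  have hdj : ∀ q : XX × XX, q ∈ {q : XX × XX | zeta q.2.1.1 = zeta q.1.1.1 ∧ hh q.2.1.1 = hh q.1.1.1} →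
      q ∈ {q : XX × XX | zeta q.2.1.1 = -zeta q.1.1.1 ∧ hh q.2.1.1 = -hh q.1.1.1} → False := by
    rintro q ⟨h1, h2⟩ ⟨h3, h4⟩
    have h5 := sphere_eq q.1.2.1
    have h6 : zeta q.1.1.1 = 0 := by
      rw [h1] at h3
      exact self_eq_neg.mp h3
    have h7 : hh q.1.1.1 = 0 := by linarith
    rw [h6, h7] at h5
    norm_num at h5
  rw [isPreconnected_iff_subset_of_disjoint_closed] at hCp
  rcases hCp _ _ hP hN hcov (by
    rw [eq_empty_iff_forall_notMem]
    rintro q ⟨_, h1, h2⟩
    exact hdj q h1 h2) with h1 | h1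
  · have := h1 (mem_connectedComponentIn hm)
    obtain ⟨_, h2⟩ := this
    simp [hx0, hx1, hh] at h2
  · exact hdj (t, t) ⟨rfl, rfl⟩ (h1 hab)


theorem cechAcyclic_XX : CechAcyclic XX :=
  cechAcyclic_of_chainContractible (chainContractible_of_nested (AA 0) nested)

/-- There are an acyclic continuum `X` (a compact subset of `ℂ × ℝ`), a continuum `Y` and a confluent mapping `f` of `X` onto `Y` such that `f × f` is not
confluent. -/
theorem result :
    ∃ (X Y : Type) (_ : MetricSpace X) (_ : MetricSpace Y),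
      CompactSpace X ∧ ConnectedSpace X ∧ CompactSpace Y ∧ ConnectedSpace Y ∧
      CechAcyclic X ∧
      ∃ f : X → Y, Continuous f ∧ Function.Surjective f ∧ Confluent f ∧
        ¬ Confluent (Prod.map f f : X × X → Y × Y) :=
  ⟨XX, YY, inferInstance, inferInstance, inferInstance, inferInstance, inferInstance,
    inferInstance, cechAcyclic_XX, ff, continuous_ff, surjective_ff, confluent_ff,
    not_confluent_square⟩

end Pool.Agent.Results.MP_53fb6e_gt.AcyclicCounterexample
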