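import Pool.Agent.Helper648.SZ.Prod

set_option autoImplicit false

namespace Pool.Agent.Results.MP_53fb6e_gt.ArcLikeSquare

/-- `X` is arc-like: for every `ε > 0` there is a mapping of `X` onto `[0,1]` all of whose fibres
have diameter less than `ε`. -/
def ArcLike (X : Type) [MetricSpace X] : Prop :=
  ∀ ε : ℝ, 0 < ε → ∃ g : X → ℝ, Continuous g ∧ Set.range g = Set.Icc 0 1 ∧
    ∀ t : ℝ, Metric.diam (g ⁻¹' {t}) < ε

/-- `f` is a confluent mapping of `X` onto `Y`: it is continuous, surjective, and for every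
subcontinuum `K` of `Y` every component of `f⁻¹(K)` is mapped onto `K`. -/
def ConfluentOnto {X Y : Type} [MetricSpace X] [MetricSpace Y] (f : X → Y) : Prop :=
  Continuous f ∧ Function.Surjective f ∧
    ∀ K : Set Y, IsClosed K → IsConnected K →
      ∀ x ∈ f ⁻¹' K, f '' connectedComponentIn (f ⁻¹' K) x = K

/-- Let `X` be an arc-like continuum and `f` a confluent mapping of `X` onto a continuum `Y`.
Then `f × f` is a confluent mapping of `X × X` onto `Y × Y`. -/
theorem result :
    ∀ (X Y : Type) [MetricSpace X] [CompactSpace X] [ConnectedSpace X]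
      [MetricSpace Y] [CompactSpace Y] [ConnectedSpace Y] (f : X → Y),
      ArcLike X → ConfluentOnto f → ConfluentOnto (Prod.map f f) := by
  intro X Y _ _ _ _ _ _ f hX hf
  obtain ⟨hfc, hfs, hfk⟩ := hf
  have hS : Pool.Agent.Helper739.CT.SpanZero X := by
    apply Pool.Agent.Helper648.SZ.spanZero_of_arcLike
    intro ε hε
    obtain ⟨g, hg, -, hg'⟩ := hX ε hε
    exact ⟨g, hg, hg'⟩
  have hC : Pool.Agent.Helper648.SZ.Confl f := fun Q hQ x hx => hfk Q hQ.1.isClosed hQ.2 x hx
  refine ⟨hfc.prodMap hfc, hfs.prodMap hfs, ?_⟩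
  intro L hL hLc p hp
  exact Pool.Agent.Helper648.SZ.prod_confl_of_spanZero hS hS f hfc hfs hC f hfc hfs hC L
    ⟨hL.isCompact, hLc⟩ p hp

end Pool.Agent.Results.MP_53fb6e_gt.ArcLikeSquare
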